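import Pool.Agent.Lib.MP_4ca46c_ag.Std.Bridge4

/-!
# The sign conjecture, the Künneth conjecture and the Lefschetz conjecture are equivalent

Let `k₀` be an algebraically closed field, for example the algebraic closure of a prime field, and
let `D` be Chow groups and a Weil cohomology theory (`CohData`, `CohData.IsTheory`, `IsStandard`)
for schemes over `k₀`, for example `ℓ`-adic cohomology. Consider smooth projective varieties `V`
over algebraically closed fields containing `k₀` (`PrVar`). For every `V` of dimension `n` there is
a `W` of dimension `2n` (a generic hyperplane section of `V × V × C`, where `C` is a Fermat curve)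
such that the sign conjecture for `W` implies the Künneth conjecture and the Lefschetz conjecture
for `V`. If the base field of `V` has infinite transcendence degree over `k₀`, then the base field
of `W` is isomorphic to it. Hence the three conjectures are equivalent, each for all smooth
projective varieties, or each for all smooth projective varieties over a fixed algebraically closed
field `k` of infinite transcendence degree over `k₀`, for example over the complex numbers.
-/

namespace Pool.Agent.Results.MP_4ca46c_ag.SignKunnethLefschetz

open Pool.Agent.Lib.MP_4ca46c_ag.Sign Pool.Agent.Lib.MP_4ca46c_ag.Std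

theorem result (k₀ K : Type) [Field k₀] [IsAlgClosed k₀] [Field K] (D : CohData k₀ K)
    (h : D.IsTheory) (h' : IsStandard D) :
    (∀ V : PrVar k₀, ∃ W : PrVar k₀, W.n = 2 * V.n ∧
      (Cardinal.aleph0 ≤ Algebra.trdeg k₀ V.k → W.IsOver V.k) ∧
      (W.SignConj D → V.KunnethConj D ∧ V.LefschetzConj D)) ∧
    [∀ V : PrVar k₀, V.SignConj D, ∀ V : PrVar k₀, V.KunnethConj D,
      ∀ V : PrVar k₀, V.LefschetzConj D].TFAE ∧
    ∀ (k : Type) [Field k] [Algebra k₀ k] [IsAlgClosed k],
      Cardinal.aleph0 ≤ Algebra.trdeg k₀ k →
      [∀ V : PrVar k₀, V.IsOver k → V.SignConj D, ∀ V : PrVar k₀, V.IsOver k → V.KunnethConj D,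
        ∀ V : PrVar k₀, V.IsOver k → V.LefschetzConj D].TFAE :=
  ⟨std_local h h', (std_main h h').2, fun k _ _ _ hk => std_over h h' k hk⟩

end Pool.Agent.Results.MP_4ca46c_ag.SignKunnethLefschetz
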