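import Pool.Agent.Lib.MP_4ca46c_ag.Od.Fin

/-!
# The Künneth conjecture over the field of rational functions in two variables

Let `D` be Chow groups and a Weil cohomology theory (`CohData`, `CohData.IsTheory`, `IsStandard`,
`WeakLefschetz`) for schemes over the field `k₀`, for example `ℓ`-adic cohomology. Consider smooth
projective varieties `V` over algebraically closed fields `k` containing `k₀` (`PrVar`).

* For every `V` of dimension `n` there are `n - 1` smooth projective varieties `U_j`, of dimensions
  `3, 5, …, 2n - 1`, over algebraically closed extensions of transcendence degree `2` of the base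
  field `k` of `V` (that is, over the algebraic closure of `k(s, t)`), such that the Lefschetz
  standard conjecture for `V` follows if the Künneth components `π_i` of the `U_j`, `i` even,
  `2 ≤ i < dim U_j`, are algebraic (`EvenKunneth`). These are `n (n - 1) / 2` classes.
* Let `V` be a variety over a field of transcendence degree `r` over `k₀`, and `r + 2 ≤ m`. If these
  components are algebraic for all varieties of odd dimension less than `2 dim V` over fields of
  transcendence degree `m` over `k₀`, then the Lefschetz conjecture holds for `V`.
* Suppose that `k₀` is algebraically closed, for example the algebraic closure of a prime field.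
  With the theorems on families in `HasFamilies` and `HasModels`, for every `m ≥ 2` the Künneth
  conjecture for all `V`, the Lefschetz conjecture for all `V`, the Lefschetz conjecture for the
  varieties over `k₀`, and the Künneth conjecture in even degrees below the middle for the varieties
  of odd dimension over fields of transcendence degree `m` over `k₀` are equivalent.
-/

namespace Pool.Agent.Lib.MP_4ca46c_ag.Old.TwoParametersEven

open Pool.Agent.Lib.MP_4ca46c_ag.Sign Pool.Agent.Lib.MP_4ca46c_ag.Std
  Pool.Agent.Lib.MP_4ca46c_ag.Vtc Pool.Agent.Lib.MP_4ca46c_ag.Od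

theorem result (k₀ K : Type) [Field k₀] [Field K] (D : CohData k₀ K) (h : D.IsTheory)
    (h' : IsStandard D) (hW : WeakLefschetz D) :
    (∀ V : PrVar k₀, ∃ U : Fin (V.n - 1) → PrVar k₀,
      (∀ j, TwoParams V (U j) ∧ (U j).n = 2 * j + 3) ∧
        ((∀ j, EvenKunneth D (U j)) → V.LefschetzConj D)) ∧
    (∀ (V : PrVar k₀) (r m : ℕ), Algebra.trdeg k₀ V.k = r → r + 2 ≤ m →
      (∀ U : PrVar k₀, Odd U.n → U.n < 2 * V.n → Algebra.trdeg k₀ U.k = m → EvenKunneth D U) →
        V.LefschetzConj D) ∧
    (IsAlgClosed k₀ → HasFamilies D → HasModels k₀ → ∀ m : ℕ, 2 ≤ m →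
      [∀ V : PrVar k₀, V.KunnethConj D, ∀ V : PrVar k₀, V.LefschetzConj D,
        ∀ V : PrVar k₀, V.IsOver k₀ → V.LefschetzConj D,
        ∀ V : PrVar k₀, Odd V.n → Algebra.trdeg k₀ V.k = m → EvenKunneth D V].TFAE) :=
  ⟨loc h h' hW, fin h h' hW, fun _ hF hM m hm => equiv h h' hW hF hM m hm⟩

end Pool.Agent.Lib.MP_4ca46c_ag.Old.TwoParametersEven
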