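import Pool.Agent.Lib.MP_4ca46c_ag.Vtc.Final

/-!
# Descent of the Künneth conjecture to the prime field, and the variational Tate conjecture

Let `k₀` be an algebraically closed field, for example the algebraic closure of a prime field, and
let `D` be Chow groups and a Weil cohomology theory (`CohData`, `CohData.IsTheory`, `IsStandard`)
for schemes over `k₀`, for example `ℓ`-adic cohomology. Consider smooth projective varieties `V`
over algebraically closed fields containing `k₀` (`PrVar`).

* Let `f : W ⟶ C` be a morphism to a smooth proper curve and `Y` a smooth connected fibre. The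
  Lefschetz standard conjecture for `W` implies that the restriction `H(W) ⟶ H(Y)` is split by an
  algebraic correspondence, and the variational Tate conjecture: the classes of cycles on `Y` which
  are restrictions of cohomology classes of `W` are restrictions of classes of cycles on `W`.
* Let `V` be the geometric generic fibre of a smooth projective family `g : X ⟶ S` over an open
  subset `S` of `C`, where `f⁻¹(S)` is mapped onto `X ×_S X` (`Model`). If the variational Tate
  conjecture holds for `f`, then the Lefschetz and the Künneth standard conjectures for the fibre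
  `X_b` imply those for `V`.
* The Lefschetz standard conjecture for a variety `V` over a field of transcendence degree `r` over
  `k₀` follows from this conjecture for finitely many varieties over `k₀` of dimension less than
  `2^r (dim V + 1)`. If `r = 1` and the Künneth conjecture holds over `k₀` (for example if `k₀` is
  the algebraic closure of a finite field) then the Künneth conjecture for `V` follows from the
  Lefschetz standard conjecture for one variety over `k₀` of dimension `2 dim V + 1`.
* The Künneth conjecture for all `V` is equivalent to the Lefschetz standard conjecture for the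
  varieties over `k₀`, and to the Künneth conjecture for the varieties over `k₀` together with the
  variational Tate conjecture.

The theorems on families which are used are listed in `HasFamilies` and `HasModels`.
-/

namespace Pool.Agent.Results.MP_4ca46c_ag.VariationalTate

open Pool.Agent.Lib.MP_4ca46c_ag.Sign Pool.Agent.Lib.MP_4ca46c_ag.Std
  Pool.Agent.Lib.MP_4ca46c_ag.Vtc

theorem result (k₀ K : Type) [Field k₀] [IsAlgClosed k₀] [Field K] (D : CohData k₀ K)
    (h : D.IsTheory) (h' : IsStandard D) (hF : HasFamilies D) :
    (∀ Φ : Fibration k₀, Φ.W.LefschetzConj D → Φ.Splits D ∧ Φ.VarTate D) ∧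
    (∀ Φ : Fibration k₀, Φ.VarTate D → ∀ (V : PrVar k₀) (M : Model Φ V), ∃ U : PrVar k₀,
      U.X = fib M.g M.b ∧ (U.LefschetzConj D → V.LefschetzConj D) ∧
        (U.KunnethConj D → V.KunnethConj D)) ∧
    (HasModels k₀ →
      (∀ (r : ℕ) (V : PrVar k₀), Algebra.trdeg k₀ V.k = r →
        ∃ S : List (PrVar k₀), (∀ U ∈ S, U.IsOver k₀ ∧ U.n < 2 ^ r * (V.n + 1)) ∧
          ((∀ U ∈ S, U.LefschetzConj D) → V.LefschetzConj D)) ∧
      ((∀ U : PrVar k₀, U.IsOver k₀ → U.KunnethConj D) → ∀ V : PrVar k₀,
        Algebra.trdeg k₀ V.k = 1 → ∃ U : PrVar k₀, U.IsOver k₀ ∧ U.n = 2 * V.n + 1 ∧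
          (U.LefschetzConj D → V.KunnethConj D)) ∧
      [∀ V : PrVar k₀, V.KunnethConj D, ∀ V : PrVar k₀, V.LefschetzConj D,
        ∀ V : PrVar k₀, V.IsOver k₀ → V.LefschetzConj D,
        (∀ V : PrVar k₀, V.IsOver k₀ → V.KunnethConj D) ∧
          ∀ Φ : Fibration k₀, Φ.VarTate D].TFAE) :=
  ⟨final_fib h h' hF, final_model h h' hF, fun hM => ⟨lefschetz_loc h h' hF hM, kunneth_loc h h' hF hM,
    final_tfae h h' hF hM⟩⟩

end Pool.Agent.Results.MP_4ca46c_ag.VariationalTate
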